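import Pool.Agent.MP_1ce666_co.Defs
import Mathlib

section

set_option autoImplicit false

namespace Pool.Agent.MP_1ce666_co

open Equiv

theorem flatMap_eq_append_cons {α β : Type} (f : α → List β) (ms : List α) (p : List β) (x : β)
    (r : List β) (h : ms.flatMap f = p ++ x :: r) :
    ∃ ms1 m ms2 s1 s2, ms = ms1 ++ m :: ms2 ∧ f m = s1 ++ x :: s2 ∧
      p = ms1.flatMap f ++ s1 ∧ r = s2 ++ ms2.flatMap f := by
  induction ms generalizing p with
  | nil => simp at h
  | cons a t ih =>
    rw [List.flatMap_cons] at h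
    rcases List.append_eq_append_iff.1 h with ⟨q, h1, h2⟩ | ⟨q, h1, h2⟩
    · obtain ⟨ms1, m, ms2, s1, s2, e1, e2, e3, e4⟩ := ih q h2
      exact ⟨a :: ms1, m, ms2, s1, s2, by simp [e1], e2, by simp [h1, e3], e4⟩
    · cases q with
      | nil =>
        obtain ⟨ms1, m, ms2, s1, s2, e1, e2, e3, e4⟩ := ih [] (by simpa using h2.symm)
        refine ⟨a :: ms1, m, ms2, s1, s2, by simp [e1], e2, ?_, e4⟩
        rw [List.flatMap_cons, List.append_assoc, ← e3, h1]
        simp
      | cons y q =>
        simp only [List.cons_append, List.cons.injEq] at h2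
        obtain ⟨rfl, rfl⟩ := h2
        exact ⟨[], a, t, p, q, rfl, h1, by simp, rfl⟩

theorem iterate_eq_append_cons {α : Type} (f : α → α) (s1 : List α) (m x : α) (s2 : List α)
    (k : ℕ) (h : List.iterate f m k = s1 ++ x :: s2) :
    m ∈ s1 ++ [x] ∧ (∀ y q, s2 = y :: q → f x = y) ∧ (s2 = [] → f x = f^[k] m) := by
  induction s1 generalizing m k with
  | nil =>
    cases k with
    | zero => simp at h
    | succ k =>
      simp only [List.iterate, List.nil_append, List.cons.injEq] at h
      obtain ⟨rfl, rfl⟩ := h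
      refine ⟨by simp, ?_, ?_⟩
      · intro y q hq
        cases k with
        | zero => simp at hq
        | succ k =>
          simp only [List.iterate, List.cons.injEq] at hq
          exact hq.1
      · intro hq
        cases k with
        | zero => rfl
        | succ k => simp [List.iterate] at hq
  | cons a t ih =>
    cases k with
    | zero => simp at h
    | succ k =>
      simp only [List.iterate, List.cons_append, List.cons.injEq] at h
      obtain ⟨rfl, h⟩ := h
      obtain ⟨_, h2, h3⟩ := ih (f m) k h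
      exact ⟨by simp, h2, fun hq => by rw [h3 hq]; rfl⟩

variable {n : ℕ}

theorem period_pos (σ : Perm (Fin n)) (m : Fin n) : 0 < Function.minimalPeriod σ m :=
  Function.minimalPeriod_pos_of_mem_periodicPts (σ.injective.mem_periodicPts m)

theorem mem_cycleWord {σ : Perm (Fin n)} {m x : Fin n} :
    x ∈ cycleWord σ m ↔ σ.SameCycle m x := by
  rw [cycleWord, List.mem_iterate]
  constructor
  · rintro ⟨i, _, rfl⟩
    exact ⟨(i : ℤ), by simp [Perm.iterate_eq_pow]⟩
  · intro h
    obtain ⟨i, rfl⟩ := h.exists_nat_pow_eq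
    exact ⟨i % Function.minimalPeriod σ m, Nat.mod_lt _ (period_pos σ m),
      by rw [Function.iterate_mod_minimalPeriod_eq]; rfl⟩

theorem nodup_cycleWord (σ : Perm (Fin n)) (m : Fin n) : (cycleWord σ m).Nodup := by
  rw [List.nodup_iff_injective_getElem]
  rintro ⟨i, hi⟩ ⟨j, hj⟩ h
  simp only [cycleWord, List.getElem_iterate] at h
  simp only [cycleWord, List.length_iterate] at hi hj
  exact Fin.ext (Function.iterate_injOn_Iio_minimalPeriod hi hj h)

theorem cycleWord_eq_cons (σ : Perm (Fin n)) (m : Fin n) : ∃ t, cycleWord σ m = m :: t := by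
  obtain ⟨k, hk⟩ := Nat.exists_eq_succ_of_ne_zero (period_pos σ m).ne'
  exact ⟨List.iterate σ (σ m) k, by rw [cycleWord, hk]; rfl⟩

/-- The list of cycle maxima. -/
def heads (σ : Perm (Fin n)) : List (Fin n) :=
  (List.finRange n).filter (fun m => decide (∀ x, σ.SameCycle m x → x ≤ m))

theorem thetaWord_eq (σ : Perm (Fin n)) : thetaWord σ = (heads σ).flatMap (cycleWord σ) := rfl

theorem mem_heads {σ : Perm (Fin n)} {m : Fin n} :
    m ∈ heads σ ↔ ∀ x, σ.SameCycle m x → x ≤ m := by
  simp [heads]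

theorem pairwise_heads (σ : Perm (Fin n)) : (heads σ).Pairwise (· < ·) :=
  (List.pairwise_lt_finRange n).filter _

theorem nodup_thetaWord (σ : Perm (Fin n)) : (thetaWord σ).Nodup := by
  rw [thetaWord_eq, List.nodup_flatMap]
  refine ⟨fun m _ => nodup_cycleWord σ m, ?_⟩
  refine (pairwise_heads σ).imp_of_mem (fun {a b} ha _ hab => ?_)
  intro x hxa hxb
  have h1 := mem_heads.1 ha b ((mem_cycleWord.1 hxa).trans (mem_cycleWord.1 hxb).symm)
  exact absurd hab (not_lt.2 h1)

theorem mem_thetaWord (σ : Perm (Fin n)) (x : Fin n) : x ∈ thetaWord σ := by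
  classical
  obtain ⟨m, hm, hmax⟩ := Finset.exists_max_image
    (Finset.univ.filter (fun y => σ.SameCycle x y)) id ⟨x, by simp [Perm.SameCycle.refl]⟩
  simp only [Finset.mem_filter, Finset.mem_univ, true_and, id] at hm hmax
  rw [thetaWord_eq, List.mem_flatMap]
  exact ⟨m, mem_heads.2 (fun y hy => hmax y (hm.trans hy)), mem_cycleWord.2 hm.symm⟩

theorem thetaWord_perm (σ : Perm (Fin n)) : (thetaWord σ).Perm (List.finRange n) :=
  (List.perm_ext_iff_of_nodup (nodup_thetaWord σ) (List.nodup_finRange n)).2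
    (fun x => by simp [mem_thetaWord])

theorem dichotomy_list (σ : Perm (Fin n)) (p : List (Fin n)) (x : Fin n) (r : List (Fin n))
    (h : thetaWord σ = p ++ x :: r) :
    (∃ y q, r = y :: q ∧ σ x = y ∧ ∃ z ∈ p ++ [x], y ≤ z) ∨
      (σ x ∈ p ++ [x] ∧ (∀ z ∈ p ++ [x], z ≤ σ x) ∧ ∀ y q, r = y :: q → σ x < y) := by
  obtain ⟨ms1, m, ms2, s1, s2, e1, e2, rfl, rfl⟩ :=
    flatMap_eq_append_cons _ _ _ _ _ (thetaWord_eq σ ▸ h)
  obtain ⟨h1, h2, h3⟩ := iterate_eq_append_cons σ s1 m x s2 _ e2
  have hpw := pairwise_heads σ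
  have hm : m ∈ heads σ := by rw [e1]; simp
  have hle : ∀ z ∈ cycleWord σ m, z ≤ m := fun z hz => mem_heads.1 hm z (mem_cycleWord.1 hz)
  have hm' : m ∈ List.flatMap (cycleWord σ) ms1 ++ s1 ++ [x] := by
    rw [List.append_assoc]
    exact List.mem_append_right _ h1
  cases s2 with
  | cons y q =>
    left
    exact ⟨y, q ++ ms2.flatMap (cycleWord σ), rfl, h2 y q rfl, m, hm',
      hle y (by rw [e2]; simp)⟩
  | nil =>
    right
    have hx : σ x = m := by rw [h3 rfl, Function.iterate_minimalPeriod]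
    rw [hx]
    rw [e1, List.pairwise_append, List.pairwise_cons] at hpw
    refine ⟨hm', fun z hz => ?_, fun y q hq => ?_⟩
    · rw [List.append_assoc, List.mem_append] at hz
      rcases hz with hz | hz
      · obtain ⟨a, ha, hza⟩ := List.mem_flatMap.1 hz
        have h4 : a ∈ heads σ := by rw [e1]; simp [ha]
        exact (mem_heads.1 h4 z (mem_cycleWord.1 hza)).trans (hpw.2.2 a ha m (by simp)).le
      · exact hle z (by rw [e2]; exact hz)
    · cases ms2 with
      | nil => simp at hq
      | cons a t =>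
        obtain ⟨t', ht'⟩ := cycleWord_eq_cons σ a
        rw [List.nil_append, List.flatMap_cons, ht'] at hq
        have : a = y := by simpa using (List.cons.inj hq).1
        rw [← this]
        exact hpw.2.1.1 a (by simp)

theorem dichotomy {σ π : Perm (Fin n)} (h : thetaWord σ = List.ofFn π) (i : Fin n) :
    (∃ j : Fin n, j.val = i.val + 1 ∧ σ (π i) = π j ∧ ∃ k ≤ i, π j ≤ π k) ∨
      (∃ k ≤ i, σ (π i) = π k ∧ (∀ k' ≤ i, π k' ≤ π k) ∧
        ∀ j : Fin n, j.val = i.val + 1 → π k < π j) := by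
  have hi : i.val < (List.ofFn π).length := by simp
  have hsplit : List.ofFn π =
      (List.ofFn π).take i ++ π i :: (List.ofFn π).drop (i + 1) := by
    conv_lhs => rw [← List.take_append_drop i (List.ofFn π), List.drop_eq_getElem_cons hi]
    simp
  have hmem : ∀ z, z ∈ (List.ofFn π).take i ++ [π i] ↔ ∃ k ≤ i, π k = z := by
    intro z
    rw [List.mem_append, List.mem_take_iff_getElem, List.mem_singleton]
    constructor
    · rintro (⟨k, hk, rfl⟩ | rfl)
      · have hk' : k < i.val := by simp at hk; omega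
        exact ⟨⟨k, by omega⟩, le_of_lt hk', by simp⟩
      · exact ⟨i, le_rfl, rfl⟩
    · rintro ⟨k, hk, rfl⟩
      rcases lt_or_eq_of_le hk with hk | rfl
      · left
        have : k.val < i.val := hk
        exact ⟨k, by simp; omega, by simp⟩
      · right; rfl
  have hhead : ∀ y, (∃ q, (List.ofFn π).drop (i + 1) = y :: q) ↔
      ∃ j : Fin n, j.val = i.val + 1 ∧ π j = y := by
    intro y
    constructor
    · rintro ⟨q, hq⟩
      have hlt : i.val + 1 < (List.ofFn π).length := by
        by_contra hcon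
        rw [List.drop_eq_nil_of_le (not_lt.1 hcon)] at hq
        simp at hq
      rw [List.drop_eq_getElem_cons hlt] at hq
      refine ⟨⟨i + 1, by simpa using hlt⟩, rfl, ?_⟩
      simpa using (List.cons.inj hq).1
    · rintro ⟨j, hj, rfl⟩
      have hlt : i.val + 1 < (List.ofFn π).length := by simp; omega
      refine ⟨(List.ofFn π).drop (i + 1 + 1), ?_⟩
      rw [List.drop_eq_getElem_cons hlt]
      congr 1
      simp only [List.getElem_ofFn]
      congr 1
      exact Fin.ext hj.symm
  rcases dichotomy_list σ _ _ _ (h.trans hsplit) with ⟨y, q, h1, h2, z, hz, hyz⟩ | ⟨h1, h2, h3⟩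
  · left
    obtain ⟨j, hj, rfl⟩ := (hhead y).1 ⟨q, h1⟩
    obtain ⟨k, hk, rfl⟩ := (hmem z).1 hz
    exact ⟨j, hj, h2, k, hk, hyz⟩
  · right
    obtain ⟨k, hk, hk'⟩ := (hmem _).1 h1
    refine ⟨k, hk, hk'.symm, fun k' hk'' => ?_, fun j hj => ?_⟩
    · rw [hk']
      exact h2 _ ((hmem _).2 ⟨k', hk'', rfl⟩)
    · obtain ⟨q, hq⟩ := (hhead (π j)).2 ⟨j, hj, rfl⟩
      rw [hk']
      exact h3 _ q hq

theorem theta_unique {σ τ π : Perm (Fin n)} (h1 : thetaWord σ = List.ofFn π)
    (h2 : thetaWord τ = List.ofFn π) : σ = τ := by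
  ext1 x
  obtain ⟨i, rfl⟩ := π.surjective x
  rcases dichotomy h1 i with ⟨j, hj, e1, k, hk, hjk⟩ | ⟨k, hk, e1, hmax, hnext⟩ <;>
  rcases dichotomy h2 i with ⟨j', hj', e2, k', hk', hjk'⟩ | ⟨k', hk', e2, hmax', hnext'⟩
  · rw [e1, e2, Fin.ext (hj.trans hj'.symm)]
  · exact absurd ((hjk.trans (hmax' k hk)).trans_lt (hnext' j hj)) (lt_irrefl _)
  · exact absurd ((hjk'.trans (hmax k' hk')).trans_lt (hnext j' hj')) (lt_irrefl _)
  · rw [e1, e2]
    exact le_antisymm (hmax' k hk) (hmax k' hk')

theorem exists_perm_ofFn {l : List (Fin n)} (h : l.Perm (List.finRange n)) :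
    ∃ π : Perm (Fin n), List.ofFn π = l := by
  have hlen : l.length = n := by simpa using h.length_eq
  have hnd : l.Nodup := h.symm.nodup (List.nodup_finRange n)
  let f : Fin n → Fin n := fun i => l[i.val]'(by omega)
  have hf : List.ofFn f = l := by
    apply List.ext_getElem
    · simp [hlen]
    · intro i _ _
      simp [f]
  have hinj : Function.Injective f := List.nodup_ofFn.1 (hf ▸ hnd)
  exact ⟨Equiv.ofBijective f (Finite.injective_iff_bijective.1 hinj), hf⟩

theorem theta_exists (π : Perm (Fin n)) : ∃ σ : Perm (Fin n), thetaWord σ = List.ofFn π := by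
  choose Θ hΘ using fun σ : Perm (Fin n) => exists_perm_ofFn (thetaWord_perm σ)
  have hinj : Function.Injective Θ := fun σ τ h =>
    theta_unique (hΘ σ).symm (h ▸ (hΘ τ).symm)
  obtain ⟨σ, rfl⟩ := Finite.injective_iff_surjective.1 hinj π
  exact ⟨σ, (hΘ σ).symm⟩

/-- `π` contains the classical pattern `3142`. -/
def Contains3142 (π : Perm (Fin n)) : Prop :=
  ∃ i j k l : Fin n, i < j ∧ j < k ∧ k < l ∧ π j < π l ∧ π l < π i ∧ π i < π k

theorem containsArrow_iff {π : Perm (Fin n)} (h321 : Avoids321 π) :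
    ContainsArrow π ↔ Contains3142 π := by
  constructor
  · rintro ⟨σ, hσ, x₁, x₂, x₃, h12, h23, hpos, rfl⟩
    obtain ⟨i, rfl⟩ := π.surjective x₁
    obtain ⟨l, rfl⟩ := π.surjective x₂
    simp only [Equiv.symm_apply_apply] at hpos
    rcases dichotomy hσ i with ⟨j, hj, e1, k, hk, hjk⟩ | ⟨k, hk, e1, hmax, hnext⟩
    · exfalso
      rw [e1] at h23
      have hne : j ≠ l := by rintro rfl; exact lt_irrefl _ h23
      have hkj : k < j := by
        rw [Fin.lt_def]; have := Fin.le_def.1 hk; omega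
      have hjl : j < l := by
        have := Fin.lt_def.1 hpos
        have h' : j.val ≠ l.val := fun h => hne (Fin.ext h)
        rw [Fin.lt_def]; omega
      exact h321 ⟨k, j, l, hkj, hjl, h23,
        lt_of_le_of_ne hjk (fun h => hkj.ne' (π.injective h))⟩
    · rw [e1] at h23
      have hl := Fin.lt_def.1 hpos
      let j : Fin n := ⟨i.val + 1, by have := l.isLt; omega⟩
      have hkj := hnext j rfl
      have hne : j ≠ l := by
        intro h
        rw [h] at hkj
        exact lt_asymm hkj h23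
      have hki : k < i := lt_of_le_of_ne hk (by
        rintro rfl
        exact lt_asymm h12 h23)
      have hjl : j < l := by
        have h' : j.val ≠ l.val := fun h => hne (Fin.ext h)
        have : j.val = i.val + 1 := rfl
        rw [Fin.lt_def]; omega
      exact ⟨k, i, j, l, hki, by rw [Fin.lt_def]; simp [j], hjl, h12, h23, hkj⟩
  · classical
    rintro ⟨i, j, k, l, hij, hjk, hkl, h1, h2, h3⟩
    obtain ⟨σ, hσ⟩ := theta_exists π
    obtain ⟨M, hM, hMmax⟩ := Finset.exists_max_image
      (Finset.univ.filter (fun t : Fin n => t ≤ j)) π ⟨j, by simp⟩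
    simp only [Finset.mem_filter, Finset.mem_univ, true_and] at hM hMmax
    have hiM : π i ≤ π M := hMmax i hij.le
    have hMk : π M < π k := by
      have hlt : M < k := hM.trans_lt hjk
      by_contra hcon
      exact h321 ⟨M, k, l, hlt, hkl, h2.trans h3,
        lt_of_le_of_ne (not_lt.1 hcon) (fun h => hlt.ne' (π.injective h))⟩
    obtain ⟨k', hk', hk'min⟩ := Finset.exists_min_image
      (Finset.univ.filter (fun t : Fin n => j < t ∧ π M < π t)) id ⟨k, by simp [hjk, hMk]⟩
    simp only [Finset.mem_filter, Finset.mem_univ, true_and, id] at hk' hk'min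
    have hk'k : k' ≤ k := hk'min k ⟨hjk, hMk⟩
    have hjk' := Fin.lt_def.1 hk'.1
    let e : Fin n := ⟨k'.val - 1, by have := k'.isLt; omega⟩
    have hev : e.val = k'.val - 1 := rfl
    have hje : j ≤ e := by rw [Fin.le_def]; omega
    have hek' : e < k' := by rw [Fin.lt_def]; omega
    have hall : ∀ t ≤ e, π t ≤ π M := by
      intro t ht
      by_cases htj : t ≤ j
      · exact hMmax t htj
      · by_contra hcon
        exact absurd (hk'min t ⟨not_le.1 htj, not_le.1 hcon⟩) (not_le.2 (ht.trans_lt hek'))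
    have hσe : σ (π e) = π M := by
      rcases dichotomy hσ e with ⟨j', hj', _, t, ht, hjt⟩ | ⟨t, ht, e1, hmax, _⟩
      · have : j' = k' := Fin.ext (by omega)
        rw [this] at hjt
        exact absurd (hjt.trans (hall t ht)) (not_le.2 hk'.2)
      · rw [e1]
        exact le_antisymm (hall t ht) (hmax M (hM.trans hje))
    have hMj : M < j := lt_of_le_of_ne hM (by
      rintro rfl
      exact absurd hiM (not_le.2 (h1.trans h2)))
    have hMe : M < e := hMj.trans_le hje
    have hel : e < l := (hek'.trans_le hk'k).trans hkl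
    have heM : π e < π M := lt_of_le_of_ne (hall e le_rfl) (fun h => hMe.ne' (π.injective h))
    have hπel : π e < π l := by
      by_contra hcon
      exact h321 ⟨M, e, l, hMe, hel,
        lt_of_le_of_ne (not_lt.1 hcon) (fun h => hel.ne' (π.injective h)), heM⟩
    exact ⟨σ, hσ, π e, π l, π M, hπel, h2.trans_le hiM, by simpa using hel, hσe⟩

end Pool.Agent.MP_1ce666_co

end

section

set_option autoImplicit false

namespace Pool.Agent.MP_1ce666_co

/-- An occurrence of `321` or of `3142`. -/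
def Bad (s : List ℕ) : Prop :=
  (∃ a b c, a < b ∧ b < c ∧ s = [c, b, a]) ∨
    (∃ a b c d, a < b ∧ b < c ∧ c < d ∧ s = [c, a, d, b])

def Good (l : List ℕ) : Prop := ∀ s, s.Sublist l → ¬ Bad s

theorem Good.sublist {l l' : List ℕ} (h : Good l) (hs : l'.Sublist l) : Good l' :=
  fun s h' => h s (h'.trans hs)

/-- Raise the value `m` to `m + 1`. -/
def bump (m x : ℕ) : ℕ := if x = m then m + 1 else x

theorem bad_map_bump {m : ℕ} {s : List ℕ} (hs : ∀ x ∈ s, x ≤ m) :
    Bad (s.map (bump m)) ↔ Bad s := by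
  constructor
  · rintro (⟨a, b, c, h1, h2, h⟩ | ⟨a, b, c, d, h1, h2, h3, h⟩)
    · match s, hs, h with
      | [z, y, x], hs, h =>
        simp only [List.map_cons, List.map_nil, List.cons.injEq, and_true] at h
        obtain ⟨rfl, rfl, rfl⟩ := h
        have := hs x (by simp)
        have := hs y (by simp)
        have := hs z (by simp)
        refine Or.inl ⟨x, y, z, ?_, ?_, rfl⟩ <;>
        · unfold bump at h1 h2; split_ifs at h1 h2 <;> omega
    · match s, hs, h with
      | [z, x, w, y], hs, h =>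
        simp only [List.map_cons, List.map_nil, List.cons.injEq, and_true] at h
        obtain ⟨rfl, rfl, rfl, rfl⟩ := h
        have := hs x (by simp)
        have := hs y (by simp)
        have := hs z (by simp)
        have := hs w (by simp)
        refine Or.inr ⟨x, y, z, w, ?_, ?_, ?_, rfl⟩ <;>
        · unfold bump at h1 h2 h3; split_ifs at h1 h2 h3 <;> omega
  · rintro (⟨a, b, c, h1, h2, rfl⟩ | ⟨a, b, c, d, h1, h2, h3, rfl⟩)
    · have := hs c (by simp)
      refine Or.inl ⟨bump m a, bump m b, bump m c, ?_, ?_, rfl⟩ <;>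
      · unfold bump; split_ifs <;> omega
    · have := hs d (by simp)
      refine Or.inr ⟨bump m a, bump m b, bump m c, bump m d, ?_, ?_, ?_, rfl⟩ <;>
      · unfold bump; split_ifs <;> omega

theorem good_map_bump {m : ℕ} {l : List ℕ} (hl : ∀ x ∈ l, x ≤ m) :
    Good (l.map (bump m)) ↔ Good l := by
  constructor
  · intro h s hs hb
    exact h _ (hs.map _) ((bad_map_bump (fun x hx => hl x (hs.subset hx))).2 hb)
  · intro h s hs hb
    obtain ⟨s', hs', rfl⟩ := List.sublist_map_iff.1 hs
    exact h _ hs' ((bad_map_bump (fun x hx => hl x (hs'.subset hx))).1 hb)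

theorem bad_concat {s : List ℕ} {x : ℕ} (h : Bad (s ++ [x])) : ∃ z ∈ s, x + 2 ≤ z := by
  rcases h with ⟨a, b, c, h1, h2, h⟩ | ⟨a, b, c, d, h1, h2, h3, h⟩
  · have h' : s ++ [x] = [c, b] ++ [a] := h
    obtain ⟨rfl, h''⟩ := List.append_inj' h' rfl
    have : x = a := by simpa using h''
    exact ⟨c, by simp, by omega⟩
  · have h' : s ++ [x] = [c, a, d] ++ [b] := h
    obtain ⟨rfl, h''⟩ := List.append_inj' h' rfl
    have : x = b := by simpa using h''
    exact ⟨d, by simp, by omega⟩

theorem good_concat {l : List ℕ} {x : ℕ} (h : Good l) (hx : ∀ z ∈ l, z ≤ x + 1) :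
    Good (l ++ [x]) := by
  intro s hs hb
  obtain ⟨s1, s2, rfl, h1, h2⟩ := List.sublist_append_iff.1 hs
  rcases List.sublist_singleton.1 h2 with rfl | rfl
  · exact h _ (by simpa using h1) hb
  · obtain ⟨z, hz, hz'⟩ := bad_concat hb
    have := hx z (h1.subset hz)
    omega

theorem not_bad_adjacent (s1 s2 : List ℕ) (x : ℕ) : ¬ Bad (s1 ++ x :: (x + 1) :: s2) := by
  rintro (⟨a, b, c, h1, h2, h⟩ | ⟨a, b, c, d, h1, h2, h3, h⟩)
  · match s1, h with
    | [], h => simp at h; omega
    | [_], h => simp at h; omega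
    | [_, _], h => simp at h
    | _ :: _ :: _ :: _, h => simp at h
  · match s1, h with
    | [], h => simp at h; omega
    | [_], h => simp at h; omega
    | [_, _], h => simp at h; omega
    | [_, _, _], h => simp at h
    | _ :: _ :: _ :: _ :: _, h => simp at h

theorem map_bump_of_lt {m : ℕ} {l : List ℕ} (hl : ∀ x ∈ l, x < m) : l.map (bump m) = l := by
  conv_rhs => rw [← List.map_id l]
  refine List.map_congr_left (fun x hx => ?_)
  have := hl x hx
  simp only [bump, id]
  split_ifs <;> omega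

theorem map_bump_split {m : ℕ} {u w : List ℕ} (hu : ∀ x ∈ u, x < m) (hw : ∀ x ∈ w, x < m) :
    (u ++ m :: w).map (bump m) = u ++ (m + 1) :: w := by
  rw [List.map_append, List.map_cons, map_bump_of_lt hu, map_bump_of_lt hw]
  simp [bump]

theorem le_of_split {m : ℕ} {u w : List ℕ} (hu : ∀ x ∈ u, x < m) (hw : ∀ x ∈ w, x < m) :
    ∀ x ∈ u ++ m :: w, x ≤ m := by
  intro x hx
  simp only [List.mem_append, List.mem_cons] at hx
  rcases hx with hx | rfl | hx
  · exact (hu x hx).le
  · exact le_rfl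
  · exact (hw x hx).le

theorem good_double {m : ℕ} {u w : List ℕ} (hu : ∀ x ∈ u, x < m) (hw : ∀ x ∈ w, x < m)
    (h : Good (u ++ m :: w)) : Good (u ++ m :: (m + 1) :: w) := by
  intro s hs hb
  obtain ⟨s1, s2, rfl, h1, h2⟩ := List.sublist_append_iff.1 hs
  rcases List.sublist_cons_iff.1 h2 with h2 | ⟨s3, rfl, h3⟩
  · have hg : Good (u ++ (m + 1) :: w) := by
      rw [← map_bump_split hu hw]
      exact (good_map_bump (le_of_split hu hw)).2 h
    exact hg _ (h1.append h2) hb
  · rcases List.sublist_cons_iff.1 h3 with h3 | ⟨s4, rfl, _⟩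
    · exact h _ (h1.append (h3.cons_cons m)) hb
    · exact not_bad_adjacent _ _ _ hb

/-- Permutations of `0, ..., n - 1`, as lists, avoiding `321` and `3142`. -/
def A (n : ℕ) : Set (List ℕ) := {l | l.Perm (List.range n) ∧ Good l}

/-- Pairs (part before the maximum `m`, part after it). -/
def P (m : ℕ) : Set (List ℕ × List ℕ) :=
  {p | (p.1 ++ p.2).Perm (List.range m) ∧ Good (p.1 ++ m :: p.2)}

/-- The maximum is not the last letter. -/
def Q (m : ℕ) : Set (List ℕ × List ℕ) := {p | p ∈ P m ∧ p.2 ≠ []}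

theorem lt_of_perm {u w : List ℕ} {m : ℕ} (h : (u ++ w).Perm (List.range m)) :
    (∀ x ∈ u, x < m) ∧ ∀ x ∈ w, x < m :=
  ⟨fun x hx => List.mem_range.1 (h.subset (List.mem_append_left _ hx)),
    fun x hx => List.mem_range.1 (h.subset (List.mem_append_right _ hx))⟩

theorem perm_insert_iff {u w : List ℕ} {m : ℕ} :
    (u ++ m :: w).Perm (List.range (m + 1)) ↔ (u ++ w).Perm (List.range m) := by
  rw [List.range_succ]
  have h1 : (u ++ m :: w).Perm (m :: (u ++ w)) := List.perm_middle
  have h2 : (List.range m ++ [m]).Perm (m :: List.range m) := List.perm_append_singleton _ _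
  rw [h1.congr_left, h2.congr_right, List.perm_cons]

theorem split_unique {m : ℕ} {u w u' w' : List ℕ} (hu : ∀ x ∈ u, x < m) (hu' : ∀ x ∈ u', x < m)
    (h : u ++ m :: w = u' ++ m :: w') : u = u' ∧ w = w' := by
  induction u generalizing u' with
  | nil =>
    cases u' with
    | nil => simpa using h
    | cons a t =>
      have := hu' a (by simp)
      simp at h
      omega
  | cons b s ih =>
    cases u' with
    | nil =>
      have := hu b (by simp)
      simp at h
      omega
    | cons a t =>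
      simp only [List.cons_append, List.cons.injEq] at h
      obtain ⟨rfl, h⟩ := h
      obtain ⟨rfl, rfl⟩ := ih (fun x hx => hu x (by simp [hx])) (fun x hx => hu' x (by simp [hx])) h
      exact ⟨rfl, rfl⟩

theorem ncard_A_succ (m : ℕ) : (A (m + 1)).ncard = (P m).ncard := by
  symm
  refine Set.ncard_congr (fun p _ => p.1 ++ m :: p.2) ?_ ?_ ?_
  · rintro ⟨u, w⟩ ⟨h1, h2⟩
    exact ⟨perm_insert_iff.2 h1, h2⟩
  · rintro ⟨u, w⟩ ⟨u', w'⟩ ⟨h1, _⟩ ⟨h1', _⟩ h
    obtain ⟨h3, h4⟩ := split_unique (lt_of_perm h1).1 (lt_of_perm h1').1 h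
    exact Prod.ext h3 h4
  · rintro l ⟨h1, h2⟩
    have hm : m ∈ l := h1.symm.subset (by simp)
    obtain ⟨u, w, rfl⟩ := List.append_of_mem hm
    exact ⟨(u, w), ⟨perm_insert_iff.1 h1, h2⟩, rfl⟩

theorem finite_P (m : ℕ) : (P m).Finite := by
  have hfin : {l : List ℕ | l.Perm (List.range (m + 1))}.Finite := by
    refine (List.finite_toSet (List.range (m + 1)).permutations).subset (fun l hl => ?_)
    exact List.mem_permutations.2 hl
  refine Set.Finite.of_finite_image (f := fun p => p.1 ++ m :: p.2) (hfin.subset ?_) ?_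
  · rintro _ ⟨⟨u, w⟩, ⟨h1, _⟩, rfl⟩
    exact perm_insert_iff.2 h1
  · rintro ⟨u, w⟩ ⟨h1, _⟩ ⟨u', w'⟩ ⟨h1', _⟩ h
    obtain ⟨h3, h4⟩ := split_unique (lt_of_perm h1).1 (lt_of_perm h1').1 h
    exact Prod.ext h3 h4

theorem finite_Q (m : ℕ) : (Q m).Finite := (finite_P m).subset (fun _ h => h.1)

theorem P_succ (m : ℕ) :
    P (m + 1) = (fun p : List ℕ × List ℕ => (p.1 ++ m :: p.2, ([] : List ℕ))) '' P m ∪
      Q (m + 1) := by
  ext ⟨u, w⟩
  constructor
  · rintro ⟨h1, h2⟩
    by_cases hw : w = []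
    · subst hw
      left
      simp only [List.append_nil] at h1
      have hm : m ∈ u := h1.symm.subset (by simp)
      obtain ⟨u1, u2, rfl⟩ := List.append_of_mem hm
      exact ⟨(u1, u2), ⟨perm_insert_iff.1 h1, h2.sublist (List.sublist_append_left _ _)⟩, rfl⟩
    · exact Or.inr ⟨⟨h1, h2⟩, hw⟩
  · rintro (⟨⟨u1, u2⟩, ⟨h1, h2⟩, h⟩ | h)
    · obtain ⟨rfl, rfl⟩ := Prod.mk.inj h
      refine ⟨by simpa using perm_insert_iff.2 h1, good_concat h2 (fun z hz => ?_)⟩
      have := le_of_split (lt_of_perm h1).1 (lt_of_perm h1).2 z hz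
      omega
    · exact h.1

theorem Q_succ (m : ℕ) :
    Q (m + 1) = (fun p : List ℕ × List ℕ => (p.1, p.2 ++ [m])) '' P m ∪
      (fun p : List ℕ × List ℕ => (p.1 ++ [m], p.2)) '' Q m := by
  ext ⟨u, w⟩
  constructor
  · rintro ⟨⟨h1, h2⟩, hw⟩
    simp only at h1 h2 hw
    have hm : m ∈ u ++ w := h1.symm.subset (by simp)
    rcases List.mem_append.1 hm with hm | hm
    · right
      obtain ⟨u1, u2, rfl⟩ := List.append_of_mem hm
      have h1' : (u1 ++ (u2 ++ w)).Perm (List.range m) :=
        perm_insert_iff.1 (by simpa using h1)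
      cases u2 with
      | nil =>
        refine ⟨(u1, w), ⟨⟨by simpa using h1', h2.sublist ?_⟩, hw⟩, by simp⟩
        simp
      | cons e t =>
        exfalso
        obtain ⟨b, w', rfl⟩ := List.exists_cons_of_ne_nil hw
        have he : e < m := (lt_of_perm h1').2 e (by simp)
        have hb : b < m := (lt_of_perm h1').2 b (by simp)
        have hnd : (u1 ++ (e :: t ++ b :: w')).Nodup := h1'.symm.nodup List.nodup_range
        have hne : e ≠ b := by
          rintro rfl
          simp [List.nodup_append] at hnd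
        have hsub : [m, e, m + 1, b].Sublist (u1 ++ m :: e :: t ++ (m + 1) :: b :: w') := by
          have h3 : [m, e].Sublist (u1 ++ m :: e :: t) :=
            List.Sublist.trans (by simp) (List.sublist_append_right u1 _)
          have h4 : [m + 1, b].Sublist ((m + 1) :: b :: w') := by simp
          exact h3.append h4
        rcases lt_or_gt_of_ne hne with h | h
        · exact h2 _ hsub (Or.inr ⟨e, b, m, m + 1, h, hb, by omega, rfl⟩)
        · exact h2 [m, e, b] (List.Sublist.trans (by simp) hsub) (Or.inl ⟨b, e, m, h, he, rfl⟩)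
    · left
      obtain ⟨w1, w2, rfl⟩ := List.append_of_mem hm
      have h1' : ((u ++ w1) ++ w2).Perm (List.range m) :=
        perm_insert_iff.1 (by simpa using h1)
      cases w2 with
      | nil =>
        have h1'' : (u ++ w1).Perm (List.range m) := by simpa using h1'
        refine ⟨(u, w1), ⟨h1'', ?_⟩, by simp⟩
        have hlt := lt_of_perm h1''
        refine (good_map_bump (le_of_split hlt.1 hlt.2)).1 ?_
        rw [map_bump_split hlt.1 hlt.2]
        refine h2.sublist ?_
        simp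
      | cons e t =>
        exfalso
        have he : e < m := (lt_of_perm h1').2 e (by simp)
        refine h2 [m + 1, m, e] ?_ (Or.inl ⟨e, m, m + 1, he, by omega, rfl⟩)
        refine List.Sublist.trans ?_ (List.sublist_append_right u _)
        refine List.Sublist.cons_cons _ ?_
        exact List.Sublist.trans (by simp) (List.sublist_append_right w1 _)
  · rintro (⟨⟨u1, u2⟩, ⟨h1, h2⟩, h⟩ | ⟨⟨u1, u2⟩, ⟨⟨h1, h2⟩, h3⟩, h⟩)
    · obtain ⟨rfl, rfl⟩ := Prod.mk.inj h
      simp only at h1 h2
      have hlt := lt_of_perm h1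
      refine ⟨⟨?_, ?_⟩, by simp⟩
      · have := perm_insert_iff (u := u1 ++ u2) (w := []) (m := m)
        simpa using this.2 (by simpa using h1)
      · have hg : Good (u1 ++ (m + 1) :: u2) := by
          rw [← map_bump_split hlt.1 hlt.2]
          exact (good_map_bump (le_of_split hlt.1 hlt.2)).2 h2
        have := good_concat (x := m) hg (le_of_split (fun x hx => (hlt.1 x hx).trans (by omega))
          (fun x hx => (hlt.2 x hx).trans (by omega)))
        simpa using this
    · obtain ⟨rfl, rfl⟩ := Prod.mk.inj h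
      simp only at h1 h2 h3
      have hlt := lt_of_perm h1
      refine ⟨⟨by simpa using perm_insert_iff.2 h1, ?_⟩, h3⟩
      simpa using good_double hlt.1 hlt.2 h2

theorem ncard_P_succ (m : ℕ) : (P (m + 1)).ncard = (P m).ncard + (Q (m + 1)).ncard := by
  rw [P_succ m, Set.ncard_union_eq _ ((finite_P m).image _) (finite_Q _),
    Set.InjOn.ncard_image]
  · rintro ⟨u, w⟩ ⟨h1, _⟩ ⟨u', w'⟩ ⟨h1', _⟩ h
    obtain ⟨h3, h4⟩ := split_unique (lt_of_perm h1).1 (lt_of_perm h1').1 (Prod.mk.inj h).1
    exact Prod.ext h3 h4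
  · rw [Set.disjoint_left]
    rintro _ ⟨p, _, rfl⟩ h
    exact h.2 rfl

theorem ncard_Q_succ (m : ℕ) : (Q (m + 1)).ncard = (P m).ncard + (Q m).ncard := by
  rw [Q_succ m, Set.ncard_union_eq _ ((finite_P m).image _) ((finite_Q _).image _),
    Set.InjOn.ncard_image, Set.InjOn.ncard_image]
  · rintro ⟨u, w⟩ _ ⟨u', w'⟩ _ h
    simpa using h
  · rintro ⟨u, w⟩ _ ⟨u', w'⟩ _ h
    simpa using h
  · rw [Set.disjoint_left]
    rintro _ ⟨⟨u, w⟩, ⟨h1, _⟩, rfl⟩ ⟨⟨u', w'⟩, _, h⟩
    have h2 : u' ++ [m] = u := (Prod.mk.inj h).1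
    have := (lt_of_perm h1).1 m (by rw [← h2]; simp)
    omega

theorem P_zero : P 0 = {([], [])} := by
  ext ⟨u, w⟩
  simp only [P, List.range_zero, List.perm_nil, List.append_eq_nil_iff, Set.mem_ofPred_eq,
    Set.mem_singleton_iff, Prod.mk.injEq]
  constructor
  · exact fun h => h.1
  · rintro ⟨rfl, rfl⟩
    refine ⟨⟨rfl, rfl⟩, fun s hs hb => ?_⟩
    have := hs.length_le
    rcases hb with ⟨a, b, c, _, _, rfl⟩ | ⟨a, b, c, d, _, _, _, rfl⟩ <;> simp at this

theorem Q_zero : Q 0 = ∅ := by
  ext ⟨u, w⟩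
  simp only [Q, P_zero, Set.mem_singleton_iff, Prod.mk.injEq, Set.mem_ofPred_eq,
    Set.mem_empty_iff_false, iff_false]
  rintro ⟨⟨_, h⟩, h'⟩
  exact h' h

theorem ncard_P_Q (m : ℕ) :
    (P m).ncard = Nat.fib (2 * m + 1) ∧ (Q m).ncard = Nat.fib (2 * m) := by
  induction m with
  | zero => simp [P_zero, Q_zero]
  | succ m ih =>
    have hQ : (Q (m + 1)).ncard = Nat.fib (2 * (m + 1)) := by
      rw [ncard_Q_succ, ih.1, ih.2, show 2 * (m + 1) = 2 * m + 2 by ring, Nat.fib_add_two]
      omega
    refine ⟨?_, hQ⟩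
    rw [ncard_P_succ, hQ, ih.1, show 2 * (m + 1) + 1 = (2 * m + 1) + 2 by ring, Nat.fib_add_two]
    rfl

theorem ncard_A (m : ℕ) : (A (m + 1)).ncard = Nat.fib (2 * m + 1) := by
  rw [ncard_A_succ, (ncard_P_Q m).1]

end Pool.Agent.MP_1ce666_co

end

section

set_option autoImplicit false

namespace Pool.Agent.MP_1ce666_co

open Equiv

variable {n : ℕ}

theorem sublist_ofFn_iff {f : Fin n → ℕ} {s : List ℕ} :
    s.Sublist (List.ofFn f) ↔ ∃ is : List (Fin n), is.Pairwise (· < ·) ∧ s = is.map f := by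
  rw [List.ofFn_eq_map, List.sublist_map_iff]
  constructor
  · rintro ⟨is, h, rfl⟩
    exact ⟨is, (List.pairwise_lt_finRange n).sublist h, rfl⟩
  · rintro ⟨is, h, rfl⟩
    refine ⟨is, ?_, rfl⟩
    refine List.sublist_of_subperm_of_pairwise (r := (· ≤ ·)) ?_ (h.imp le_of_lt)
      ((List.pairwise_lt_finRange n).imp le_of_lt)
    exact List.subperm_of_subset (h.imp ne_of_lt) (fun x _ => List.mem_finRange x)

/-- One-line word of `π` as a list of natural numbers. -/
def word (π : Perm (Fin n)) : List ℕ := List.ofFn (fun i => (π i).val)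

theorem good_word_iff (π : Perm (Fin n)) :
    Good (word π) ↔ Avoids321 π ∧ ¬ Contains3142 π := by
  constructor
  · intro h
    constructor
    · rintro ⟨i, j, k, hij, hjk, h1, h2⟩
      exact h _ (sublist_ofFn_iff.2 ⟨[i, j, k], by simp [hij, hjk, hij.trans hjk], rfl⟩)
        (Or.inl ⟨_, _, _, h1, h2, rfl⟩)
    · rintro ⟨i, j, k, l, hij, hjk, hkl, h1, h2, h3⟩
      exact h _ (sublist_ofFn_iff.2 ⟨[i, j, k, l], by
        simp [hij, hjk, hkl, hij.trans hjk, hjk.trans hkl, (hij.trans hjk).trans hkl], rfl⟩)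
        (Or.inr ⟨_, _, _, _, h1, h2, h3, rfl⟩)
  · rintro ⟨h321, h3142⟩ s hs hb
    obtain ⟨is, hpw, rfl⟩ := sublist_ofFn_iff.1 hs
    rcases hb with ⟨a, b, c, h1, h2, h⟩ | ⟨a, b, c, d, h1, h2, h3, h⟩
    · match is, hpw, h with
      | [i, j, k], hpw, h =>
        simp only [List.map_cons, List.map_nil, List.cons.injEq, and_true] at h
        obtain ⟨rfl, rfl, rfl⟩ := h
        simp only [List.pairwise_cons, List.mem_cons, List.not_mem_nil, or_false,
          forall_eq_or_imp, forall_eq] at hpw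
        exact h321 ⟨i, j, k, hpw.1.1, hpw.2.1, h1, h2⟩
    · match is, hpw, h with
      | [i, j, k, l], hpw, h =>
        simp only [List.map_cons, List.map_nil, List.cons.injEq, and_true] at h
        obtain ⟨rfl, rfl, rfl, rfl⟩ := h
        simp only [List.pairwise_cons, List.mem_cons, List.not_mem_nil, or_false,
          forall_eq_or_imp, forall_eq] at hpw
        exact h3142 ⟨i, j, k, l, hpw.1.1, hpw.2.1.1, hpw.2.2.1, h1, h2, h3⟩

theorem word_eq_map (π : Perm (Fin n)) : word π = (List.ofFn π).map Fin.val := by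
  rw [List.map_ofFn]; rfl

theorem word_perm (π : Perm (Fin n)) : (word π).Perm (List.range n) := by
  rw [word_eq_map, ← List.map_coe_finRange_eq_range, List.ofFn_eq_map]
  exact (Equiv.Perm.map_finRange_perm π).map _

theorem word_injective : Function.Injective (word : Perm (Fin n) → List ℕ) := by
  intro π τ h
  have := List.ofFn_injective h
  ext i
  exact congrFun this i

theorem exists_word {l : List ℕ} (h : l.Perm (List.range n)) : ∃ π : Perm (Fin n), word π = l := by
  have hlt : ∀ x ∈ l, x < n := fun x hx => List.mem_range.1 (h.subset hx)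
  let l' : List (Fin n) := l.pmap Fin.mk hlt
  have hl' : l'.map Fin.val = l := by
    simp [l', List.map_pmap]
  have hp : l'.Perm (List.finRange n) := by
    rw [← hl', ← List.map_coe_finRange_eq_range] at h
    exact (List.map_perm_map_iff Fin.val_injective).1 h
  obtain ⟨π, hπ⟩ := exists_perm_ofFn hp
  exact ⟨π, by rw [word_eq_map, hπ, hl']⟩

theorem main (n : ℕ) (hn : 1 ≤ n) :
    Nat.card {π : Perm (Fin n) // Avoids321 π ∧ ¬ ContainsArrow π} = Nat.fib (2 * n - 1) := by
  obtain ⟨m, rfl⟩ : ∃ m, n = m + 1 := ⟨n - 1, by omega⟩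
  rw [show 2 * (m + 1) - 1 = 2 * m + 1 by omega, ← ncard_A]
  change {π : Perm (Fin (m + 1)) | Avoids321 π ∧ ¬ ContainsArrow π}.ncard = _
  refine Set.ncard_congr (fun π _ => word π) ?_ ?_ ?_
  · rintro π ⟨h1, h2⟩
    exact ⟨word_perm π, (good_word_iff π).2 ⟨h1, fun h => h2 ((containsArrow_iff h1).2 h)⟩⟩
  · intro π τ _ _ h
    exact word_injective h
  · rintro l ⟨h1, h2⟩
    obtain ⟨π, rfl⟩ := exists_word h1
    obtain ⟨h3, h4⟩ := (good_word_iff π).1 h2
    exact ⟨π, ⟨h3, fun h => h4 ((containsArrow_iff h3).1 h)⟩, rfl⟩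

end Pool.Agent.MP_1ce666_co

end
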